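import Pool.Agent.helper71.DSW.SpecA

/-!
# Row dsw:LOG (MP_a87880_co)
-/

set_option autoImplicit false

namespace Pool.Agent.DSW

open Equiv Finset Function Pool.Agent.helper48.PP
open scoped ENNReal Classical

theorem LOG_aux (q : ℕ) (hq : 25 ≤ q) : 9 * (4 * q + 13) ^ 3 + 2 ≤ 2 ^ q := by
  induction q, hq using Nat.le_induction with
  | base => norm_num
  | succ q hq ih =>
    have h1 : 9 * (4 * (q + 1) + 13) ^ 3 + 2 ≤ 2 * (9 * (4 * q + 13) ^ 3 + 2) := by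
      obtain ⟨y, rfl⟩ : ∃ y, q = y + 25 := ⟨q - 25, by omega⟩
      ring_nf
      nlinarith [sq_nonneg y, Nat.zero_le y, Nat.zero_le (y ^ 2), Nat.zero_le (y ^ 3)]
    calc 9 * (4 * (q + 1) + 13) ^ 3 + 2 ≤ 2 * (9 * (4 * q + 13) ^ 3 + 2) := h1
      _ ≤ 2 * 2 ^ q := Nat.mul_le_mul_left 2 ih
      _ = 2 ^ (q + 1) := by rw [pow_succ]; ring

theorem LOG : LOG_stmt := by
  refine ⟨2 ^ 25, fun L hL => ?_⟩
  have hL0 : L ≠ 0 := by
    intro h
    rw [h] at hL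
    norm_num at hL
  have hq : 25 ≤ Nat.log 2 L := (Nat.le_log_iff_pow_le (by norm_num) hL0).mpr hL
  have h1 : 2 ^ Nat.log 2 L ≤ L := Nat.pow_log_le_self 2 hL0
  have h2 : L < 2 ^ (Nat.log 2 L + 1) := Nat.lt_pow_succ_log_self (by norm_num) L
  refine ⟨4 * Nat.log 2 L + 12, by omega, ?_, ?_⟩
  · exact (LOG_aux _ hq).trans h1
  · have h3 : L ^ 4 < (2 ^ (Nat.log 2 L + 1)) ^ 4 := Nat.pow_lt_pow_left h2 (by norm_num)
    calc 128 * (L * L) ^ 2 = 128 * L ^ 4 := by ring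
      _ < 128 * (2 ^ (Nat.log 2 L + 1)) ^ 4 := Nat.mul_lt_mul_of_pos_left h3 (by norm_num)
      _ = 2 ^ (4 * Nat.log 2 L + 11) := by
          rw [← pow_mul]
          have : (128 : ℕ) = 2 ^ 7 := by norm_num
          rw [this, ← pow_add]
          ring_nf
      _ ≤ 2 ^ (4 * Nat.log 2 L + 12) := Nat.pow_le_pow_right (by norm_num) (by omega)

end Pool.Agent.DSW
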