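import Pool.Agent.helper71.DSW.SpecC

/-!
# Row dsw:WLK (MP_a87880_co): the number of connected sets of blocks through a given block
-/

set_option autoImplicit false

namespace Pool.Agent.DSW

open Equiv Finset Function Pool.Agent.helper48.PP
open scoped ENNReal Classical

/-- `S` is the set of vertices visited by a walk with `n` steps from `z` -/
inductive WLK_Wk {L : ℕ} : (Fin L × Fin L) → ℕ → Finset (Fin L × Fin L) → Prop
  | nil (z : Fin L × Fin L) : WLK_Wk z 0 {z}
  | cons (z v : Fin L × Fin L) (n : ℕ) (S : Finset (Fin L × Fin L)) :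
      Adj z v → WLK_Wk v n S → WLK_Wk z (n + 1) (insert z S)

theorem WLK_symm {L : ℕ} {u v : Fin L × Fin L} (h : Adj u v) : Adj v u := by
  unfold Adj at h ⊢
  rcases h with ⟨h1, h2⟩ | ⟨h1, h2⟩
  · exact Or.inl ⟨h1.symm, h2.symm⟩
  · exact Or.inr ⟨h1.symm, h2.symm⟩

theorem WLK_detour {L : ℕ} {u : Fin L × Fin L} {n : ℕ} {S : Finset (Fin L × Fin L)}
    (h : WLK_Wk u n S) : ∀ {z v : Fin L × Fin L}, z ∈ S → Adj z v → WLK_Wk u (n + 2) (insert v S) := by
  induction h with
  | nil u =>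
    intro z v hz hv
    rw [Finset.mem_singleton] at hz
    subst hz
    have h1 := WLK_Wk.cons z v 1 _ hv (WLK_Wk.cons v z 0 _ (WLK_symm hv) (WLK_Wk.nil z))
    have h2 : insert z (insert v ({z} : Finset (Fin L × Fin L))) = insert v {z} := by
      rw [Finset.insert_comm, Finset.insert_eq_of_mem (Finset.mem_singleton_self z)]
    rwa [h2] at h1
  | cons u w n S hw hS ih =>
    intro z v hz hv
    rcases Finset.mem_insert.mp hz with h1 | h1
    · subst h1
      have h2 := WLK_Wk.cons z v (n + 2) _ hv (WLK_Wk.cons v z (n + 1) _ (WLK_symm hv)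
        (WLK_Wk.cons z w n S hw hS))
      have h3 : insert z (insert v (insert z S)) = insert v (insert z S) := by
        rw [Finset.insert_comm, Finset.insert_eq_of_mem (Finset.mem_insert_self z S)]
      rwa [h3] at h2
    · have h2 := WLK_Wk.cons u w (n + 2) _ hw (ih h1 hv)
      rwa [Finset.insert_comm] at h2

theorem WLK_nb {L : ℕ} (u : Fin L × Fin L) : (Finset.univ.filter (fun v => Adj u v)).card ≤ 4 := by
  have h1 : Finset.univ.filter (fun v => Adj u v) ⊆
      ((Finset.univ.filter (fun v : Fin L × Fin L => u.1 = v.1 ∧ (u.2 : ℕ) + 1 = (v.2 : ℕ))) ∪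
        (Finset.univ.filter (fun v : Fin L × Fin L => u.1 = v.1 ∧ (v.2 : ℕ) + 1 = (u.2 : ℕ)))) ∪
      ((Finset.univ.filter (fun v : Fin L × Fin L => u.2 = v.2 ∧ (u.1 : ℕ) + 1 = (v.1 : ℕ))) ∪
        (Finset.univ.filter (fun v : Fin L × Fin L => u.2 = v.2 ∧ (v.1 : ℕ) + 1 = (u.1 : ℕ)))) := by
    intro v hv
    have h2 : Adj u v := (Finset.mem_filter.mp hv).2
    simp only [Finset.mem_union, Finset.mem_filter, Finset.mem_univ, true_and]
    rcases h2 with ⟨h3, h4 | h4⟩ | ⟨h3, h4 | h4⟩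
    · exact Or.inl (Or.inl ⟨h3, h4⟩)
    · exact Or.inl (Or.inr ⟨h3, h4⟩)
    · exact Or.inr (Or.inl ⟨h3, h4⟩)
    · exact Or.inr (Or.inr ⟨h3, h4⟩)
  have c1 : (Finset.univ.filter (fun v : Fin L × Fin L => u.1 = v.1 ∧ (u.2 : ℕ) + 1 = (v.2 : ℕ))).card ≤ 1 := by
    rw [Finset.card_le_one]
    intro a ha b hb
    have ha2 := (Finset.mem_filter.mp ha).2
    have hb2 := (Finset.mem_filter.mp hb).2
    exact Prod.ext (ha2.1.symm.trans hb2.1) (Fin.ext (by omega))
  have c2 : (Finset.univ.filter (fun v : Fin L × Fin L => u.1 = v.1 ∧ (v.2 : ℕ) + 1 = (u.2 : ℕ))).card ≤ 1 := by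
    rw [Finset.card_le_one]
    intro a ha b hb
    have ha2 := (Finset.mem_filter.mp ha).2
    have hb2 := (Finset.mem_filter.mp hb).2
    exact Prod.ext (ha2.1.symm.trans hb2.1) (Fin.ext (by omega))
  have c3 : (Finset.univ.filter (fun v : Fin L × Fin L => u.2 = v.2 ∧ (u.1 : ℕ) + 1 = (v.1 : ℕ))).card ≤ 1 := by
    rw [Finset.card_le_one]
    intro a ha b hb
    have ha2 := (Finset.mem_filter.mp ha).2
    have hb2 := (Finset.mem_filter.mp hb).2
    exact Prod.ext (Fin.ext (by omega)) (ha2.1.symm.trans hb2.1)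
  have c4 : (Finset.univ.filter (fun v : Fin L × Fin L => u.2 = v.2 ∧ (v.1 : ℕ) + 1 = (u.1 : ℕ))).card ≤ 1 := by
    rw [Finset.card_le_one]
    intro a ha b hb
    have ha2 := (Finset.mem_filter.mp ha).2
    have hb2 := (Finset.mem_filter.mp hb).2
    exact Prod.ext (Fin.ext (by omega)) (ha2.1.symm.trans hb2.1)
  refine (Finset.card_le_card h1).trans ((Finset.card_union_le _ _).trans ?_)
  have d1 := Finset.card_union_le
    (Finset.univ.filter (fun v : Fin L × Fin L => u.1 = v.1 ∧ (u.2 : ℕ) + 1 = (v.2 : ℕ)))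
    (Finset.univ.filter (fun v : Fin L × Fin L => u.1 = v.1 ∧ (v.2 : ℕ) + 1 = (u.2 : ℕ)))
  have d2 := Finset.card_union_le
    (Finset.univ.filter (fun v : Fin L × Fin L => u.2 = v.2 ∧ (u.1 : ℕ) + 1 = (v.1 : ℕ)))
    (Finset.univ.filter (fun v : Fin L × Fin L => u.2 = v.2 ∧ (v.1 : ℕ) + 1 = (u.1 : ℕ)))
  omega

theorem WLK_count {L : ℕ} (n : ℕ) : ∀ u : Fin L × Fin L,
    (Finset.univ.filter (fun S : Finset (Fin L × Fin L) => WLK_Wk u n S)).card ≤ 4 ^ n := by
  induction n with
  | zero =>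
    intro u
    rw [pow_zero, Finset.card_le_one]
    have key : ∀ S, WLK_Wk u 0 S → S = {u} := by
      intro S hS
      cases hS
      rfl
    intro a ha b hb
    rw [key a (Finset.mem_filter.mp ha).2, key b (Finset.mem_filter.mp hb).2]
  | succ n ih =>
    intro u
    have h1 : Finset.univ.filter (fun S : Finset (Fin L × Fin L) => WLK_Wk u (n + 1) S) ⊆
        (Finset.univ.filter (fun v => Adj u v)).biUnion (fun v =>
          (Finset.univ.filter (fun S : Finset (Fin L × Fin L) => WLK_Wk v n S)).image (insert u)) := by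
      intro S hS
      have h2 : WLK_Wk u (n + 1) S := (Finset.mem_filter.mp hS).2
      cases h2 with
      | cons _ v _ S' hv hS' =>
        rw [Finset.mem_biUnion]
        exact ⟨v, Finset.mem_filter.mpr ⟨Finset.mem_univ _, hv⟩,
          Finset.mem_image.mpr ⟨S', Finset.mem_filter.mpr ⟨Finset.mem_univ _, hS'⟩, rfl⟩⟩
    refine (Finset.card_le_card h1).trans (Finset.card_biUnion_le.trans ?_)
    have h3 : ∀ v ∈ Finset.univ.filter (fun v => Adj u v),
        ((Finset.univ.filter (fun S : Finset (Fin L × Fin L) => WLK_Wk v n S)).image (insert u)).card ≤ 4 ^ n :=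
      fun v _ => Finset.card_image_le.trans (ih v)
    refine (Finset.sum_le_card_nsmul _ _ _ h3).trans ?_
    rw [smul_eq_mul, pow_succ, mul_comm (4 ^ n)]
    exact Nat.mul_le_mul_right _ (WLK_nb u)

theorem WLK_grow {L : ℕ} {R : Finset (Fin L × Fin L)} (hR : Conn R) {u : Fin L × Fin L} (hu : u ∈ R)
    (j : ℕ) : j + 1 ≤ R.card → ∃ S ⊆ R, S.card = j + 1 ∧ u ∈ S ∧ WLK_Wk u (2 * j) S := by
  induction j with
  | zero =>
    intro _
    exact ⟨{u}, Finset.singleton_subset_iff.mpr hu, Finset.card_singleton u, Finset.mem_singleton_self u,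
      WLK_Wk.nil u⟩
  | succ j ih =>
    intro hj
    obtain ⟨S, hS1, hS2, hS3, hS4⟩ := ih (by omega)
    have hne : S ≠ R := by
      intro h
      rw [h] at hS2
      omega
    obtain ⟨z, hz, v, hv, hzv⟩ := hR.2 S hS1 ⟨u, hS3⟩ hne
    have hv2 := Finset.mem_sdiff.mp hv
    refine ⟨insert v S, Finset.insert_subset hv2.1 hS1, ?_, Finset.mem_insert_of_mem hS3, ?_⟩
    · rw [Finset.card_insert_of_notMem hv2.2, hS2]
    · exact WLK_detour hS4 hz hzv

theorem WLK : WLK_stmt := by
  intro L r u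
  rcases Nat.eq_zero_or_pos r with hr | hr
  · subst hr
    have h1 : (Finset.univ.filter fun R : Finset (Fin L × Fin L) => Conn R ∧ u ∈ R ∧ R.card = 0) = ∅ := by
      rw [Finset.filter_eq_empty_iff]
      rintro R - ⟨-, h2, h3⟩
      rw [Finset.card_eq_zero] at h3
      rw [h3] at h2
      exact absurd h2 (Finset.notMem_empty u)
    rw [h1]
    simp
  · have h1 : (Finset.univ.filter fun R : Finset (Fin L × Fin L) => Conn R ∧ u ∈ R ∧ R.card = r) ⊆
        Finset.univ.filter (fun S : Finset (Fin L × Fin L) => WLK_Wk u (2 * (r - 1)) S) := by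
      intro R hR
      obtain ⟨hR1, hR2, hR3⟩ := (Finset.mem_filter.mp hR).2
      obtain ⟨S, hS1, hS2, -, hS4⟩ := WLK_grow hR1 hR2 (r - 1) (by omega)
      have h2 : S = R := Finset.eq_of_subset_of_card_le hS1 (by omega)
      rw [h2] at hS4
      exact Finset.mem_filter.mpr ⟨Finset.mem_univ _, hS4⟩
    refine (Finset.card_le_card h1).trans ((WLK_count _ u).trans ?_)
    rw [pow_mul]
    exact Nat.pow_le_pow_right (by norm_num) (by omega)

end Pool.Agent.DSW
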